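import Mathlib
import Pool.Agent.R987.BKR
import Pool.Agent.R987.BKRPow

/-!
# Inequivalent bracketings of `A^r` can all have different values, for every `r`

For a set `D` of triples of labels we use a set `AD D` of points which have three coordinates for
every triple in `D` and one coordinate (the tag) for every one of the `r` labels. For every
bracketing `t` of `r` letters there is a set `D` for which a certain point belongs to the value of
`t` (theorem `wins`), but belongs only to the values of the bracketings which are equivalent to `t`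
(theorem `forced`). All powers of all sets `AD D` are nonempty (theorem `pow_nonempty`), so that a
product construction treats all bracketings at the same time.
-/

set_option autoImplicit false

open Set

namespace Pool.Agent.Results.MP_2d934b_pr.AllPowersDistinct

open Pool.Agent.R987.BKR Pool.Agent.R987.BKRPow

/-- The nondegenerate triples in `D`. -/
noncomputable def nd {r : ℕ} (D : Finset (Trip r)) : Finset (Trip r) := by
  classical exact D.filter Nondeg

theorem mem_nd {r : ℕ} (D : Finset (Trip r)) (τ : Trip r) : τ ∈ nd D ↔ τ ∈ D ∧ Nondeg τ := by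
  simp [nd]

/-- The triples which are joined by `t` in the right order. -/
noncomputable def DT (r : ℕ) (t : Bracketing) : Finset (Trip r) := by
  classical exact Finset.univ.filter fun τ => disp t 0 τ.1 τ.2.1 τ.2.2

theorem mem_DT {r : ℕ} (t : Bracketing) (τ : Trip r) :
    τ ∈ DT r t ↔ disp t 0 τ.1 τ.2.1 τ.2.2 := by
  simp [DT]

/-- All tags are on, and every triple is in its initial state. -/
def start (r : ℕ) : Crd r → Bool
  | Sum.inl q => if q.2 = 2 then false else true
  | Sum.inr _ => true

theorem nd_DT {r : ℕ} (t : Bracketing) : nd (DT r t) = DT r t := by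
  ext τ
  rw [mem_nd]
  constructor
  · exact fun h => h.1
  · intro h
    refine ⟨h, ?_⟩
    have := disp_spec t 0 _ _ _ ((mem_DT t τ).1 h)
    refine ⟨fun h1 => ?_, fun h1 => ?_, fun h1 => ?_⟩
    · exact this.1 (congrArg Fin.val h1)
    · exact this.2.1 (congrArg Fin.val h1)
    · exact this.2.2.1 (congrArg Fin.val h1)

theorem start_mem {r : ℕ} (t : Bracketing) (ht : t.size = r) :
    start r ∈ pow (AD (DT r t)) t := by
  refine wins t 0 (start r) (by omega) (fun i _ => rfl) ?_ ?_ ?_
  · intro τ hτ _ _
    exact (mem_DT t τ).1 hτ
  · intro τ hτ _ _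
    exact (mem_DT t τ).1 hτ
  · intro τ hτ
    refine ⟨fun _ _ => ?_, fun _ _ _ => ?_, fun _ => Or.inl ?_, fun _ => Or.inr (Or.inl ?_),
      fun _ => Or.inl ?_⟩ <;> simp [start]

theorem start_forces {r : ℕ} (t t' : Bracketing) (ht : t.size = r) (ht' : t'.size = r)
    (h : start r ∈ pow (AD (DT r t)) t') : Same t' t := by
  refine forced (D := DT r t) ?_ t 0 t' (start r) (by omega) ?_ (by omega) ?_ ?_ h
  · intro τ hτ
    rw [← nd_DT] at hτ
    exact ((mem_nd _ _).1 hτ).2
  · intro τ hτ
    exact (mem_DT t τ).2 hτ
  · ext i
    rw [mem_tg, mem_seg]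
    have := i.2
    simp only [start, true_iff]
    omega
  · intro τ _
    refine ⟨?_, ?_, ?_⟩ <;> simp [start]

/-- For every `r ≥ 5` (indeed for every `r ≥ 1`) there are a nonempty set `S`, a dimension `d ≥ 1`
and a set `A ⊆ S^d` such that two bracketings of `A^r` have the same value only if they are
equivalent, i.e. only if one is obtained from the other by swapping the two subtrees at some
internal nodes. -/
theorem result : ∀ r : ℕ, 5 ≤ r → ∃ (S : Type) (_ : Nonempty S) (d : ℕ) (_ : 1 ≤ d)
    (A : Set (Fin d → S)), ∀ t t' : Bracketing, t.size = r → t'.size = r →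
      (pow A t = pow A t' ↔ Same t t') := by
  intro r hr
  classical
  let e : Finset (Trip r) × Crd r ≃ Fin (Fintype.card (Finset (Trip r) × Crd r)) :=
    Fintype.equivFin _
  have hcard : 1 ≤ Fintype.card (Finset (Trip r) × Crd r) := by
    have : Nonempty (Finset (Trip r) × Crd r) := ⟨(∅, Sum.inr ⟨0, by omega⟩)⟩
    exact Fintype.card_pos
  refine ⟨Bool, inferInstance, _, hcard, ren e (prodSet fun D => AD (nd D)), ?_⟩
  intro t t' ht ht'
  refine ⟨fun h => ?_, pow_same _⟩
  rw [pow_ren, pow_ren, pow_prodSet, pow_prodSet] at h
  have h1 := ren_injective e h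
  have hne : ∀ D : Finset (Trip r), (pow (AD (nd D)) t).Nonempty := fun D =>
    pow_nonempty (fun τ hτ => ((mem_nd D τ).1 hτ).2) t ht
  choose z hz using hne
  let x : Finset (Trip r) × Crd r → Bool := fun s =>
    if s.1 = DT r t then start r s.2 else z s.1 s.2
  have hx : x ∈ prodSet fun D => pow (AD (nd D)) t := by
    intro D
    change (fun i => x (D, i)) ∈ pow (AD (nd D)) t
    by_cases hD : D = DT r t
    · subst hD
      simp only [x, if_true]
      rw [nd_DT]
      exact start_mem t ht
    · simp only [x, hD, if_false]
      exact hz D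
  rw [h1] at hx
  have h2 : (fun i => x (DT r t, i)) ∈ pow (AD (nd (DT r t))) t' := hx (DT r t)
  rw [nd_DT] at h2
  simp only [x, if_true] at h2
  exact (start_forces t t' ht ht' h2).symm

end Pool.Agent.Results.MP_2d934b_pr.AllPowersDistinct
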